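import Pool.Agent.E8helper59.TS.Stm

/-!
# Project TS, piece TS3: the step in all directions
-/

set_option autoImplicit false
open MeasureTheory Set Filter Topology
open scoped Pointwise ENNReal
open Pool.Agent.E8helper59.TS

namespace Pool.Agent.E8helper25.TS

/-- the plane map with matrix `a b; c d`, as a linear equivalence -/
noncomputable def mkL (a b c d : ℝ) (h : a * d - b * c ≠ 0) : (ℝ × ℝ) ≃ₗ[ℝ] (ℝ × ℝ) where
  toFun p := (a * p.1 + b * p.2, c * p.1 + d * p.2)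
  invFun p := ((d * p.1 - b * p.2) / (a * d - b * c), (a * p.2 - c * p.1) / (a * d - b * c))
  map_add' p q := by
    ext
    · simp only [Prod.fst_add, Prod.snd_add]; ring
    · simp only [Prod.fst_add, Prod.snd_add]; ring
  map_smul' r p := by
    ext
    · simp only [Prod.smul_fst, Prod.smul_snd, smul_eq_mul, RingHom.id_apply]; ring
    · simp only [Prod.smul_fst, Prod.smul_snd, smul_eq_mul, RingHom.id_apply]; ring
  left_inv p := by
    ext
    · simp only
      rw [div_eq_iff h]; ring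
    · simp only
      rw [div_eq_iff h]; ring
  right_inv p := by
    ext
    · simp only
      rw [← mul_div_assoc, ← mul_div_assoc, ← add_div, div_eq_iff h]; ring
    · simp only
      rw [← mul_div_assoc, ← mul_div_assoc, ← add_div, div_eq_iff h]; ring

/-- the same, as a continuous linear equivalence -/
noncomputable def mkC (a b c d : ℝ) (h : a * d - b * c ≠ 0) : (ℝ × ℝ) ≃L[ℝ] (ℝ × ℝ) :=
  (mkL a b c d h).toContinuousLinearEquiv

theorem mkC_apply (a b c d : ℝ) (h : a * d - b * c ≠ 0) (p : ℝ × ℝ) :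
    mkC a b c d h p = (a * p.1 + b * p.2, c * p.1 + d * p.2) := rfl

theorem mkC_det (a b c d : ℝ) (h : a * d - b * c ≠ 0) :
    LinearMap.det ((mkC a b c d h : (ℝ × ℝ) →L[ℝ] (ℝ × ℝ)) : (ℝ × ℝ) →ₗ[ℝ] (ℝ × ℝ)) =
      a * d - b * c := by
  rw [← LinearMap.det_toMatrix (Module.Basis.finTwoProd ℝ), Matrix.det_fin_two]
  simp only [LinearMap.toMatrix_apply, Module.Basis.finTwoProd_zero, Module.Basis.finTwoProd_one]
  have h1 : ((mkC a b c d h : (ℝ × ℝ) →L[ℝ] (ℝ × ℝ)) : (ℝ × ℝ) →ₗ[ℝ] (ℝ × ℝ)) (1, 0) =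
      (a, c) := by
    show mkC a b c d h (1, 0) = (a, c)
    rw [mkC_apply]
    ext <;> simp
  have h2 : ((mkC a b c d h : (ℝ × ℝ) →L[ℝ] (ℝ × ℝ)) : (ℝ × ℝ) →ₗ[ℝ] (ℝ × ℝ)) (0, 1) =
      (b, d) := by
    show mkC a b c d h (0, 1) = (b, d)
    rw [mkC_apply]
    ext <;> simp
  rw [h1, h2]
  simp [Module.Basis.finTwoProd]

theorem u_apply (u : (ℝ × ℝ) →L[ℝ] ℝ) (p : ℝ × ℝ) :
    u p = u (1, 0) * p.1 + u (0, 1) * p.2 := by
  have h : p = p.1 • ((1 : ℝ), (0 : ℝ)) + p.2 • ((0 : ℝ), (1 : ℝ)) := by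
    ext <;> simp
  conv_lhs => rw [h]
  rw [map_add, map_smul, map_smul, smul_eq_mul, smul_eq_mul]
  ring

/-- images under an affine map and volumes -/
theorem vol_img (φ : (ℝ × ℝ) ≃L[ℝ] (ℝ × ℝ)) (w : ℝ × ℝ) (S : Set (ℝ × ℝ)) :
    (volume ((fun p => φ p + w) '' S)).toReal =
      |LinearMap.det ((φ : (ℝ × ℝ) →L[ℝ] (ℝ × ℝ)) : (ℝ × ℝ) →ₗ[ℝ] (ℝ × ℝ))| *
        (volume S).toReal := by
  have h1 : (fun p => φ p + w) '' S = (fun q => q + w) '' (φ '' S) := by
    rw [image_image]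
  rw [h1, Set.image_add_right, measure_preimage_add_right]
  have h2 : (volume : Measure (ℝ × ℝ)) ((φ : (ℝ × ℝ) →L[ℝ] (ℝ × ℝ)) '' S) =
      ENNReal.ofReal |((φ : (ℝ × ℝ) →L[ℝ] (ℝ × ℝ))).det| * volume S :=
    Measure.addHaar_image_continuousLinearMap volume _ S
  have h3 : (φ '' S) = ((φ : (ℝ × ℝ) →L[ℝ] (ℝ × ℝ)) '' S) := rfl
  rw [h3, h2, ENNReal.toReal_mul, ENNReal.toReal_ofReal (abs_nonneg _)]

/-- TS3 -/
theorem t_DIR (hS : S_STEP) : S_DIR := by
  intro A B C hB hCap u hu1 hu2 hCc hCv c hc1 hc2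
  set a : ℝ := u (1, 0) with ha
  set b : ℝ := u (0, 1) with hb
  have hu : ∀ p : ℝ × ℝ, u p = a * p.1 + b * p.2 := fun p => u_apply u p
  have hd : 0 < a * a + b * b := by
    rcases hu2 with ⟨p, _, hp⟩
    rw [hu] at hp
    by_contra hcon
    have h0 : a * a + b * b = 0 :=
      le_antisymm (not_lt.1 hcon) (add_nonneg (mul_self_nonneg _) (mul_self_nonneg _))
    have ha0 : a = 0 := by nlinarith [mul_self_nonneg a, mul_self_nonneg b]
    have hb0 : b = 0 := by nlinarith [mul_self_nonneg a, mul_self_nonneg b]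
    rw [ha0, hb0] at hp
    norm_num at hp
  have hdet : a * a - b * (-b) ≠ 0 := by
    have : a * a - b * (-b) = a * a + b * b := by ring
    rw [this]; exact hd.ne'
  set φ := mkC a b (-b) a hdet with hφ
  have hφ1 : ∀ p, (φ p).1 = u p := by
    intro p
    rw [hφ, mkC_apply, hu]
  have hφ2 : ∀ p, (φ p).2 = -b * p.1 + a * p.2 := by
    intro p
    rw [hφ, mkC_apply]
  have hφd : LinearMap.det ((φ : (ℝ × ℝ) →L[ℝ] (ℝ × ℝ)) : (ℝ × ℝ) →ₗ[ℝ] (ℝ × ℝ)) =
      a * a + b * b := by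
    rw [hφ, mkC_det]; ring
  set B' : Set (ℝ × ℝ) := φ '' B with hB'
  set T : ℝ × ℝ → ℝ × ℝ := fun p => φ p + (-c, 0) with hT
  have hT1 : ∀ p, (T p).1 = u p - c := by
    intro p
    rw [hT]
    simp only [Prod.fst_add, hφ1]
    ring
  have hBod : Bod B' := by
    refine ⟨hB.comp.image φ.continuous, hB.conv.linear_image ((φ : (ℝ × ℝ) →L[ℝ] (ℝ × ℝ)) :
      (ℝ × ℝ) →ₗ[ℝ] (ℝ × ℝ)), ?_, ?_⟩
    · have h1 : φ '' interior B = interior (φ '' B) := φ.toHomeomorph.image_interior B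
      rw [hB', ← h1]
      exact hB.int.image _
    · rintro _ ⟨p, hp, rfl⟩
      exact ⟨-p, hB.symm p hp, map_neg φ p⟩
  have h1 : ∀ p ∈ B', |p.1| ≤ 1 / 2 := by
    rintro _ ⟨p, hp, rfl⟩
    rw [hφ1]
    exact hu1 p hp
  have h2 : ∃ p ∈ B', p.1 = 1 / 2 := by
    rcases hu2 with ⟨p, hp, hpu⟩
    exact ⟨φ p, ⟨p, hp, rfl⟩, by rw [hφ1, hpu]⟩
  have h3 : ∀ m h : ℝ, (∀ p ∈ B', p.2 - m * p.1 ≤ h) → A * (a * a + b * b) ≤ 2 * h := by
    intro m h hmh
    have hneg : ∀ p ∈ B', -h ≤ p.2 - m * p.1 := by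
      intro p hp
      have := hmh (-p) (hBod.symm p hp)
      simp only [Prod.snd_neg, Prod.fst_neg] at this
      linarith
    have hpos : 0 < h := by
      rcases hBod.int with ⟨p, hp⟩
      rcases Metric.isOpen_iff.1 isOpen_interior p hp with ⟨ε, hε, hball⟩
      have hq : p + (0, ε / 2) ∈ Metric.ball p ε := by
        rw [Metric.mem_ball, dist_eq_norm]
        have : p + (0, ε / 2) - p = ((0 : ℝ), ε / 2) := by
          ext <;> simp
        rw [this, Prod.norm_def]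
        simp only [norm_zero, Real.norm_eq_abs]
        rw [abs_of_pos (by linarith)]
        rw [max_eq_right (by linarith)]
        linarith
      have hq' := interior_subset (hball hq)
      have e1 := hmh _ hq'
      have e2 := hneg _ (interior_subset hp)
      simp only [Prod.snd_add, Prod.fst_add] at e1
      nlinarith
    have hdet2 : a * ((a - m * b) / (2 * h)) - b * ((-b - m * a) / (2 * h)) ≠ 0 := by
      have : a * ((a - m * b) / (2 * h)) - b * ((-b - m * a) / (2 * h)) =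
          (a * a + b * b) / (2 * h) := by
        field_simp
        ring
      rw [this]
      positivity
    have hC := hCap (mkC a b ((-b - m * a) / (2 * h)) ((a - m * b) / (2 * h)) hdet2) (by
      intro p hp
      rw [mkC_apply]
      constructor
      · simp only
        rw [← hu]
        exact hu1 p hp
      · simp only
        have e0 : (-b - m * a) / (2 * h) * p.1 + (a - m * b) / (2 * h) * p.2 =
            ((φ p).2 - m * (φ p).1) / (2 * h) := by
          rw [hφ2, hφ1, hu]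
          ring
        rw [e0, abs_div, abs_of_pos (by linarith : 0 < 2 * h), div_le_iff₀ (by linarith)]
        have e1 := hmh (φ p) ⟨p, hp, rfl⟩
        have e2 := hneg (φ p) ⟨p, hp, rfl⟩
        rw [abs_le]
        constructor <;> linarith)
    rw [mkC_det] at hC
    have e3 : a * ((a - m * b) / (2 * h)) - b * ((-b - m * a) / (2 * h)) =
          (a * a + b * b) / (2 * h) := by
        field_simp
        ring
    rw [e3, abs_of_pos (by positivity), ← mul_div_assoc, div_le_one (by linarith)] at hC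
    exact hC
  have hCc' : IsCompact (T '' C) := hCc.image (by rw [hT]; fun_prop)
  have hCv' : Convex ℝ (T '' C) := by
    have e : T '' C = (fun q => q + ((-c, 0) : ℝ × ℝ)) '' (φ '' C) := by
      rw [image_image]
    rw [e]
    have e1 : Convex ℝ (φ '' C) := hCv.linear_image ((φ : (ℝ × ℝ) →L[ℝ] (ℝ × ℝ)) :
      (ℝ × ℝ) →ₗ[ℝ] (ℝ × ℝ))
    have e2 := e1.translate ((-c, 0) : ℝ × ℝ)
    have e3 : (fun q : ℝ × ℝ => q + ((-c, 0) : ℝ × ℝ)) = fun q => ((-c, 0) : ℝ × ℝ) + q := by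
      funext q
      exact add_comm _ _
    rw [e3]
    exact e2
  have h4 : ∃ p ∈ T '' C, p.1 ≤ 0 := by
    rcases hc1 with ⟨p, hp, hpu⟩
    exact ⟨T p, ⟨p, hp, rfl⟩, by rw [hT1]; linarith⟩
  have h5 : ∃ p ∈ T '' C, 1 ≤ p.1 := by
    rcases hc2 with ⟨p, hp, hpu⟩
    exact ⟨T p, ⟨p, hp, rfl⟩, by rw [hT1]; linarith⟩
  have key := hS (A * (a * a + b * b)) B' (T '' C) hBod h1 h2 h3 hCc' hCv' h4 h5
  have add_img : ∀ X : Set (ℝ × ℝ), T '' X + B' = T '' (X + B) := by
    intro X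
    ext q
    constructor
    · rintro ⟨_, ⟨x, hx, rfl⟩, _, ⟨y, hy, rfl⟩, rfl⟩
      refine ⟨x + y, add_mem_add hx hy, ?_⟩
      simp only [hT, map_add]
      abel
    · rintro ⟨_, ⟨x, hx, y, hy, rfl⟩, rfl⟩
      refine ⟨T x, ⟨x, hx, rfl⟩, φ y, ⟨y, hy, rfl⟩, ?_⟩
      simp only [hT, map_add]
      abel
  have i1 : T '' C ∩ {p | p.1 ≤ 0} = T '' (C ∩ {p | u p ≤ c}) := by
    ext q
    constructor
    · rintro ⟨⟨x, hx, rfl⟩, hq⟩
      refine ⟨x, ⟨hx, ?_⟩, rfl⟩
      have := hT1 x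
      simp only [mem_ofPred_eq] at hq ⊢
      linarith
    · rintro ⟨x, ⟨hx, hq⟩, rfl⟩
      refine ⟨⟨x, hx, rfl⟩, ?_⟩
      have := hT1 x
      simp only [mem_ofPred_eq] at hq ⊢
      linarith
  have i2 : T '' C ∩ {p | 1 ≤ p.1} = T '' (C ∩ {p | c + 1 ≤ u p}) := by
    ext q
    constructor
    · rintro ⟨⟨x, hx, rfl⟩, hq⟩
      refine ⟨x, ⟨hx, ?_⟩, rfl⟩
      have := hT1 x
      simp only [mem_ofPred_eq] at hq ⊢
      linarith
    · rintro ⟨x, ⟨hx, hq⟩, rfl⟩
      refine ⟨⟨x, hx, rfl⟩, ?_⟩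
      have := hT1 x
      simp only [mem_ofPred_eq] at hq ⊢
      linarith
  have vB : (volume B').toReal = (a * a + b * b) * (volume B).toReal := by
    have := vol_img φ 0 B
    simp only [add_zero] at this
    rw [hφd, abs_of_pos hd] at this
    exact this
  have vT : ∀ X : Set (ℝ × ℝ), (volume (T '' X)).toReal =
      (a * a + b * b) * (volume X).toReal := by
    intro X
    have := vol_img φ (-c, 0) X
    rw [hφd, abs_of_pos hd] at this
    exact this
  rw [i1, i2, add_img, add_img, add_img, vT, vT, vT, vB] at key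
  refine le_of_mul_le_mul_left ?_ hd
  linarith

end Pool.Agent.E8helper25.TS
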